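import Mathlib

/-!
# Directed paths: the Turán digraphs `T_{n,k}` are not extremal for `n` close to `3 k`

A digraph consisting of a complete digraph on about `k / 2` vertices followed by about `k / 2`
independent sets (all arcs between different blocks pointing forward) has no directed path on
`k + 1` vertices, and it has more arcs than `T_{n,k}` when `k` is large and `n` is `3 k`, and more
generally when `3 k ≤ n ≤ k ^ (3/2) / 3`.
-/

set_option autoImplicit false

namespace Pool.Agent.Results.MP_81ec8a_co.CliqueBlock

open Finset

/-- A strict digraph on the vertex set `Fin n`: a set of ordered pairs of distinct vertices. -/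
def Strict {n : ℕ} (D : Finset (Fin n × Fin n)) : Prop := ∀ a ∈ D, a.1 ≠ a.2

/-- `D` contains a directed path on `m` vertices. -/
def HasPath {n : ℕ} (D : Finset (Fin n × Fin n)) (m : ℕ) : Prop :=
  ∃ f : Fin m → Fin n, Function.Injective f ∧
    ∀ (i : ℕ) (h : i + 1 < m), (f ⟨i, by omega⟩, f ⟨i + 1, h⟩) ∈ D

/-- The largest number of arcs of a strict digraph on `n` vertices with no directed path on `m`
vertices. -/
noncomputable def ex (n m : ℕ) : ℕ :=
  sSup {a | ∃ D : Finset (Fin n × Fin n), Strict D ∧ ¬ HasPath D m ∧ D.card = a}

/-- `T` is one of the digraphs `T_{n,k}`: the vertices are split into `k` parts whose sizes differ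
by at most one, and the arcs are all pairs going from a part to a later part. -/
def IsTuranDigraph (n k : ℕ) (T : Finset (Fin n × Fin n)) : Prop :=
  ∃ part : Fin n → Fin k,
    (∀ i j, (univ.filter fun v => part v = i).card ≤ (univ.filter fun v => part v = j).card + 1) ∧
    ∀ a : Fin n × Fin n, a ∈ T ↔ part a.1 < part a.2

/-- level of a vertex: the first `m` vertices have level `0`, the others are in consecutive groups
of `s` vertices, of levels `1, 2, ...` -/
def lev (m s v : ℕ) : ℕ := if v < m then 0 else 1 + (v - m) / s

theorem lev_lt {m s v : ℕ} (h : v < m) : lev m s v = 0 := by simp [lev, h]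

theorem lev_ge {m s v : ℕ} (h : ¬ v < m) : lev m s v = 1 + (v - m) / s := by simp [lev, h]

/-- complete digraph on the first `m` vertices, all arcs from smaller to larger level. -/
def dig (n m s : ℕ) : Finset (Fin n × Fin n) :=
  univ.filter fun a => (a.1.val < m ∧ a.2.val < m ∧ a.1 ≠ a.2) ∨ lev m s a.1 < lev m s a.2

theorem bdd (n m : ℕ) :
    BddAbove {a | ∃ D : Finset (Fin n × Fin n), Strict D ∧ ¬ HasPath D m ∧ D.card = a} := by
  refine ⟨Fintype.card (Fin n × Fin n), ?_⟩
  rintro a ⟨D, -, -, rfl⟩
  exact Finset.card_le_univ D

theorem dig_strict (n m s : ℕ) : Strict (dig n m s) := by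
  intro a ha h
  rw [dig, mem_filter] at ha
  rcases ha.2 with h1 | h1
  · exact h1.2.2 h
  · rw [h] at h1
    exact lt_irrefl _ h1

theorem arc_le {n m s : ℕ} {u v : Fin n} (h : (u, v) ∈ dig n m s) :
    lev m s u ≤ lev m s v ∧ (m ≤ u.val → lev m s u < lev m s v) := by
  rw [dig, mem_filter] at h
  rcases h.2 with h1 | h1
  · have e1 : lev m s u = 0 := by simp [lev, h1.1]
    refine ⟨by rw [e1]; exact Nat.zero_le _, fun h2 => absurd h1.1 (by simpa using h2)⟩
  · exact ⟨h1.le, fun _ => h1⟩

/-- no path on `k + 1` vertices -/
theorem dig_no_path {n m s k : ℕ} (hs : 0 < s) (hmk : m ≤ k) (hn : n ≤ m + s * (k - m)) :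
    ¬ HasPath (dig n m s) (k + 1) := by
  rintro ⟨f, hf, harc⟩
  -- levels are monotone along the path
  have hmono : ∀ (d i : ℕ) (h : i + d < k + 1),
      lev m s (f ⟨i, by omega⟩) ≤ lev m s (f ⟨i + d, h⟩) := by
    intro d
    induction d with
    | zero => intro i h; exact le_rfl
    | succ d ih =>
      intro i h
      exact (ih i (by omega)).trans (arc_le (harc (i + d) (by omega))).1
  have hstrict : ∀ (d i : ℕ) (h : i + d + 1 < k + 1), m ≤ (f ⟨i, by omega⟩ : Fin n).val →
      lev m s (f ⟨i, by omega⟩) < lev m s (f ⟨i + d + 1, h⟩) := by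
    intro d i h hm
    have h1 := (arc_le (harc i (by omega))).2 hm
    have h2 := hmono d (i + 1) (by omega)
    have e : (⟨i + 1 + d, by omega⟩ : Fin (k + 1)) = ⟨i + d + 1, h⟩ := by
      apply Fin.ext; simp only; omega
    rw [e] at h2
    exact lt_of_lt_of_le h1 h2
  -- an injection into a set of size `k`
  let g : Fin (k + 1) → ℕ := fun i =>
    if (f i).val < m then (f i).val else m + (lev m s (f i) - 1)
  have hg : ∀ i, g i < k := by
    intro i
    simp only [g]
    split_ifs with h
    · omega
    · have hlt := (f i).isLt
      rw [lev_ge h]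
      have : ((f i).val - m) / s < k - m := by
        rw [Nat.div_lt_iff_lt_mul hs]
        rw [mul_comm s] at hn
        omega
      generalize ((f i).val - m) / s = t at this ⊢
      omega
  have hinj : Function.Injective g := by
    have key : ∀ i j : Fin (k + 1), i < j → g i ≠ g j := by
      intro i j hij he
      have hfne : f i ≠ f j := fun h => hij.ne (hf h)
      simp only [g] at he
      by_cases h1 : (f i).val < m
      · by_cases h2 : (f j).val < m
        · rw [if_pos h1, if_pos h2] at he
          exact hfne (Fin.ext he)
        · rw [if_pos h1, if_neg h2] at he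
          omega
      · by_cases h2 : (f j).val < m
        · rw [if_neg h1, if_pos h2] at he
          omega
        · rw [if_neg h1, if_neg h2] at he
          have hi := i.isLt
          have hj := j.isLt
          have hij' : i.val < j.val := hij
          have h3 := hstrict (j.val - i.val - 1) i.val (by omega) (not_lt.1 h1)
          have e : (⟨i.val + (j.val - i.val - 1) + 1, by omega⟩ : Fin (k + 1)) = j := by
            apply Fin.ext; simp only; omega
          rw [e] at h3
          have e2 : (⟨i.val, by omega⟩ : Fin (k + 1)) = i := rfl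
          rw [e2] at h3
          have h4 : 1 ≤ lev m s (f i) := by rw [lev_ge h1]; exact Nat.le_add_right _ _
          omega
    intro i j he
    rcases lt_trichotomy i j with h | h | h
    · exact absurd he (key i j h)
    · exact h
    · exact absurd he.symm (key j i h)
  have := Finset.card_le_card_of_injOn (s := (univ : Finset (Fin (k + 1)))) (t := range k) g
    (fun i _ => by simpa using hg i) (fun i _ j _ h => hinj h)
  simp at this

/-- pairs with different values of a function: half of all minus the pairs with equal values -/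
theorem two_mul_lt {n : ℕ} (f : Fin n → ℕ) :
    2 * (univ.filter fun a : Fin n × Fin n => f a.1 < f a.2).card +
      (univ.filter fun a : Fin n × Fin n => f a.1 = f a.2).card = n * n := by
  have h1 : (univ.filter fun a : Fin n × Fin n => f a.1 < f a.2).card =
      (univ.filter fun a : Fin n × Fin n => f a.2 < f a.1).card := by
    apply Finset.card_bij (fun a _ => (a.2, a.1))
    · intro a ha; simpa using ha
    · rintro ⟨a, b⟩ _ ⟨c, d⟩ _ h
      simp only [Prod.mk.injEq] at h ⊢
      exact ⟨h.2, h.1⟩
    · rintro ⟨a, b⟩ h
      exact ⟨(b, a), by simpa using h, rfl⟩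
  have h2 : (univ.filter fun a : Fin n × Fin n => f a.1 < f a.2).card +
      (univ.filter fun a : Fin n × Fin n => ¬ f a.1 < f a.2).card = n * n := by
    rw [Finset.card_filter_add_card_filter_not]
    simp
  have h3 : (univ.filter fun a : Fin n × Fin n => ¬ f a.1 < f a.2).card =
      (univ.filter fun a : Fin n × Fin n => f a.2 < f a.1).card +
      (univ.filter fun a : Fin n × Fin n => f a.1 = f a.2).card := by
    rw [← Finset.card_union_of_disjoint]
    · congr 1
      ext a
      simp only [mem_filter, mem_univ, true_and, mem_union]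
      omega
    · rw [Finset.disjoint_left]
      intro a ha hb
      simp only [mem_filter, mem_univ, true_and] at ha hb
      omega
  omega

theorem eq_count_dig {n m s : ℕ} (hs : 0 < s) (hmn : m ≤ n) :
    (univ.filter fun a : Fin n × Fin n => lev m s a.1 = lev m s a.2).card ≤
      m * m + (n - m) * s := by
  -- count by first coordinate
  have h1 : (univ.filter fun a : Fin n × Fin n => lev m s a.1 = lev m s a.2).card =
      ∑ u : Fin n, (univ.filter fun v : Fin n => lev m s u = lev m s v).card := by
    rw [Finset.card_filter, ← Finset.univ_product_univ, Finset.sum_product]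
    apply Finset.sum_congr rfl
    intro u _
    rw [Finset.card_filter]
  rw [h1]
  have h2 : ∀ u : Fin n, (univ.filter fun v : Fin n => lev m s u = lev m s v).card ≤
      if u.val < m then m else s := by
    intro u
    split_ifs with h
    · have : (univ.filter fun v : Fin n => lev m s u = lev m s v).card ≤ (range m).card := by
        apply Finset.card_le_card_of_injOn (fun v => v.val)
        · intro v hv
          simp only [coe_filter, mem_univ, true_and, Set.mem_ofPred_eq] at hv
          simp only [coe_range, Set.mem_Iio]
          by_contra hcon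
          rw [lev_lt h, lev_ge hcon] at hv
          exact absurd hv (by positivity)
        · intro a _ b _ hab
          exact Fin.ext hab
      simpa using this
    · have : (univ.filter fun v : Fin n => lev m s u = lev m s v).card ≤
          (Finset.Ico (m + (u.val - m) / s * s) (m + (u.val - m) / s * s + s)).card := by
        apply Finset.card_le_card_of_injOn (fun v => v.val)
        · intro v hv
          simp only [coe_filter, mem_univ, true_and, Set.mem_ofPred_eq] at hv
          simp only [coe_Ico, Set.mem_Ico]
          by_cases h3 : v.val < m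
          · rw [lev_lt h3, lev_ge h] at hv
            exact absurd hv (by positivity)
          · rw [lev_ge h3, lev_ge h] at hv
            have h4 : (u.val - m) / s = (v.val - m) / s := Nat.add_left_cancel hv
            rw [h4]
            have h5 := Nat.div_mul_le_self (v.val - m) s
            have h6 := Nat.lt_div_mul_add (a := v.val - m) hs
            omega
        · intro a _ b _ hab
          exact Fin.ext hab
      simpa using this
  refine (Finset.sum_le_sum (fun u _ => h2 u)).trans ?_
  rw [Finset.sum_ite, Finset.sum_const, Finset.sum_const, smul_eq_mul, smul_eq_mul]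
  have h3 : (univ.filter fun u : Fin n => u.val < m).card = m := by
    have : (univ.filter fun u : Fin n => u.val < m).card = (range m).card := by
      apply Finset.card_bij (fun v _ => v.val)
      · intro a ha; simpa using ha
      · intro a _ b _ hab; exact Fin.ext hab
      · intro b hb
        rw [mem_range] at hb
        exact ⟨⟨b, by omega⟩, by simpa using hb, rfl⟩
    simpa using this
  have h4 : (univ.filter fun u : Fin n => u.val < m).card +
      (univ.filter fun u : Fin n => ¬ u.val < m).card = n := by
    rw [Finset.card_filter_add_card_filter_not]; simp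
  rw [h3] at h4 ⊢
  have h5 : (univ.filter fun u : Fin n => ¬ u.val < m).card = n - m := by omega
  rw [h5]

theorem dig_card {n m s : ℕ} (hs : 0 < s) (hmn : m ≤ n) :
    n * n + 2 * (m * (m - 1)) ≤ 2 * (dig n m s).card + (m * m + (n - m) * s) := by
  have h1 := two_mul_lt (n := n) (fun v => lev m s v)
  have h2 := eq_count_dig (n := n) hs hmn
  have h3 : (dig n m s).card =
      (univ.filter fun a : Fin n × Fin n => a.1.val < m ∧ a.2.val < m ∧ a.1 ≠ a.2).card +
      (univ.filter fun a : Fin n × Fin n => lev m s a.1 < lev m s a.2).card := by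
    rw [dig, Finset.filter_or, Finset.card_union_of_disjoint]
    rw [Finset.disjoint_left]
    intro a ha hb
    simp only [mem_filter, mem_univ, true_and] at ha hb
    simp only [lev, ha.1, ha.2.1, if_true] at hb
    omega
  have h4 : m * (m - 1) ≤
      (univ.filter fun a : Fin n × Fin n => a.1.val < m ∧ a.2.val < m ∧ a.1 ≠ a.2).card := by
    have h5 : (univ : Finset (Fin m)).offDiag.card = m * m - m := by
      rw [Finset.offDiag_card]; simp
    have h6 : m * (m - 1) = m * m - m := by rw [Nat.mul_sub, mul_one]
    rw [h6, ← h5]
    apply Finset.card_le_card_of_injOn (fun a => (Fin.castLE hmn a.1, Fin.castLE hmn a.2))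
    · rintro ⟨a, b⟩ hab
      simp only [coe_offDiag, Set.mem_offDiag, coe_univ, Set.mem_univ, true_and] at hab
      simp only [coe_filter, mem_univ, true_and, Set.mem_ofPred_eq, Fin.val_castLE]
      refine ⟨a.isLt, b.isLt, fun h => hab ?_⟩
      exact Fin.castLE_injective hmn h
    · rintro ⟨a, b⟩ _ ⟨c, d⟩ _ h
      simp only [Prod.mk.injEq] at h ⊢
      exact ⟨Fin.castLE_injective hmn h.1, Fin.castLE_injective hmn h.2⟩
  omega

/-- upper bound for the number of arcs of `T_{n,k}` -/
theorem turan_card {n k : ℕ} {T : Finset (Fin n × Fin n)} (hT : IsTuranDigraph n k T) :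
    k * (2 * T.card) + n * n ≤ k * (n * n) := by
  obtain ⟨part, -, hmem⟩ := hT
  have h1 := two_mul_lt (n := n) (fun v => (part v).val)
  have h2 : T = univ.filter fun a : Fin n × Fin n => (part a.1).val < (part a.2).val := by
    ext a
    rw [hmem, mem_filter, Fin.lt_def]
    exact ⟨fun h => ⟨mem_univ _, h⟩, fun h => h.2⟩
  rw [← h2] at h1
  -- Cauchy-Schwarz
  have h3 : n * n ≤ k * (univ.filter fun a : Fin n × Fin n => (part a.1).val = (part a.2).val).card := by
    have e1 : (univ.filter fun a : Fin n × Fin n => (part a.1).val = (part a.2).val).card =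
        ∑ i : Fin k, (univ.filter fun v => part v = i).card ^ 2 := by
      have : (univ.filter fun a : Fin n × Fin n => (part a.1).val = (part a.2).val) =
          (univ : Finset (Fin k)).biUnion (fun i =>
            (univ.filter fun v => part v = i) ×ˢ (univ.filter fun v => part v = i)) := by
        ext a
        simp only [mem_filter, mem_univ, true_and, mem_biUnion, mem_product]
        constructor
        · intro h
          exact ⟨part a.1, rfl, (Fin.ext h).symm⟩
        · rintro ⟨i, hi, hj⟩
          rw [hi, hj]
      rw [this, Finset.card_biUnion]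
      · apply Finset.sum_congr rfl
        intro i _
        rw [Finset.card_product, sq]
      · intro i _ j _ hij
        rw [Function.onFun, Finset.disjoint_left]
        intro a ha hb
        simp only [mem_product, mem_filter, mem_univ, true_and] at ha hb
        exact hij (ha.1.symm.trans hb.1)
    have e2 : ∑ i : Fin k, (univ.filter fun v => part v = i).card = n := by
      have := Finset.card_eq_sum_card_fiberwise (f := part) (s := (univ : Finset (Fin n)))
        (t := (univ : Finset (Fin k))) (fun _ _ => mem_coe.2 (mem_univ _))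
      rw [Finset.card_univ, Fintype.card_fin] at this
      exact this.symm
    have e3 := sq_sum_le_card_mul_sum_sq (s := (univ : Finset (Fin k)))
      (f := fun i => (univ.filter fun v => part v = i).card)
    rw [e2, Finset.card_univ, Fintype.card_fin, ← e1] at e3
    rw [← sq]; exact e3
  have h4 : k * (2 * T.card + (univ.filter fun a : Fin n × Fin n =>
      (part a.1).val = (part a.2).val).card) = k * (n * n) := by rw [h1]
  rw [mul_add] at h4
  omega

/-- the comparison of the two numbers of arcs gives the result -/
theorem compare {n k m s : ℕ} (hs : 0 < s) (hmk : m ≤ k) (hmn : m ≤ n)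
    (hn : n ≤ m + s * (k - m)) {T : Finset (Fin n × Fin n)} (hT : IsTuranDigraph n k T)
    (hineq : k * (m * m + (n - m) * s) < n * n + k * (2 * (m * (m - 1)))) :
    T.card < ex n (k + 1) := by
  have h1 := dig_card (n := n) hs hmn
  have h2 := turan_card hT
  have h3 : (dig n m s).card ≤ ex n (k + 1) :=
    le_csSup (bdd n (k + 1)) ⟨_, dig_strict n m s, dig_no_path hs hmk hn, rfl⟩
  have h4 : k * (n * n + 2 * (m * (m - 1))) ≤
      k * (2 * (dig n m s).card + (m * m + (n - m) * s)) := Nat.mul_le_mul_left _ h1
  have h5 : k * (2 * T.card) < k * (2 * (dig n m s).card) := by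
    rw [mul_add, mul_add] at h4
    omega
  have h6 := Nat.lt_of_mul_lt_mul_left h5
  omega

/-- **The Turán digraphs are not extremal for directed paths.** Let `k ≥ 1` and `n ≥ 3 k`. If
`n = 3 k` and `k ≥ 20`, or if `9 n ^ 2 ≤ k ^ 3`, then some strict digraph on `n` vertices without
directed path on `k + 1` vertices has more arcs than the digraphs `T_{n,k}`. -/
theorem result (k n : ℕ) (hk : 1 ≤ k) (hn : 3 * k ≤ n)
    (h : (n = 3 * k ∧ 20 ≤ k) ∨ 9 * n ^ 2 ≤ k ^ 3)
    (T : Finset (Fin n × Fin n)) (hT : IsTuranDigraph n k T) :
    T.card < ex n (k + 1) := by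
  rcases h with ⟨rfl, h20⟩ | h
  · -- `m = k / 2`, `s = 5`
    rcases Nat.even_or_odd' k with ⟨j, rfl | rfl⟩
    · refine compare (m := j) (s := 5) (by norm_num) (by omega) (by omega) (by omega) hT ?_
      obtain ⟨i, rfl⟩ : ∃ i, j = i + 10 := ⟨j - 10, by omega⟩
      have e1 : 3 * (2 * (i + 10)) - (i + 10) = 5 * (i + 10) := by omega
      have e2 : i + 10 - 1 = i + 9 := by omega
      rw [e1, e2]
      nlinarith
    · refine compare (m := j) (s := 5) (by norm_num) (by omega) (by omega) (by omega) hT ?_
      obtain ⟨i, rfl⟩ : ∃ i, j = i + 10 := ⟨j - 10, by omega⟩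
      have e1 : 3 * (2 * (i + 10) + 1) - (i + 10) = 5 * (i + 10) + 3 := by omega
      have e2 : i + 10 - 1 = i + 9 := by omega
      rw [e1, e2]
      nlinarith
  · -- `m = k / 2`, `s = ⌈(n - m) / (k - m)⌉`
    have h81 : 81 ≤ k := by
      by_contra hcon
      have h1 : k ^ 3 < 81 * k ^ 2 := by
        have : k ^ 3 = k * k ^ 2 := by ring
        rw [this]
        exact Nat.mul_lt_mul_of_pos_right (by omega) (by positivity)
      have h2 : 81 * k ^ 2 ≤ 9 * n ^ 2 := by nlinarith
      omega
    obtain ⟨m, hm⟩ : ∃ m, m = k / 2 := ⟨_, rfl⟩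
    obtain ⟨q, hq⟩ : ∃ q, q = (n - m) / (k - m) := ⟨_, rfl⟩
    have hkm : 0 < k - m := by omega
    have hdiv : (n - m) < (k - m) * (q + 1) := by
      rw [hq]
      exact Nat.lt_mul_div_succ _ hkm
    have hdiv2 : q * (k - m) ≤ n - m := by
      rw [hq]; exact Nat.div_mul_le_self _ _
    refine compare (m := m) (s := q + 1) (by omega) (by omega) (by omega) ?_ hT ?_
    · rw [mul_comm (q + 1)]
      omega
    · have hmn : m ≤ n := by omega
      obtain ⟨N, hN⟩ : ∃ N, N = n - m := ⟨_, rfl⟩
      rw [← hN] at hdiv2 ⊢
      have hNn : N ≤ n := by omega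
      have h27 : 27 * n ≤ k ^ 2 := by
        have h1 : (27 * n) ^ 2 ≤ (k ^ 2) ^ 2 := by nlinarith
        exact (Nat.pow_le_pow_iff_left (by norm_num)).1 h1
      have hm1 : k ≤ 2 * m + 1 := by omega
      have hm2 : 2 * m ≤ k := by omega
      have hK : k ≤ 2 * (k - m) := by omega
      have e1 : k * (N * q) ≤ 2 * N * N := by
        calc k * (N * q) ≤ 2 * (k - m) * (N * q) := Nat.mul_le_mul_right _ hK
          _ = 2 * N * (q * (k - m)) := by ring
          _ ≤ 2 * N * N := Nat.mul_le_mul_left _ hdiv2
      have e2 : N * N ≤ n * n := Nat.mul_le_mul hNn hNn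
      have e3 : k * N ≤ k * n := Nat.mul_le_mul_left _ hNn
      have key : n * n + k * n + 2 * (k * m) < k * (m * m) := by
        have f1 : 108 * (n * n) ≤ 12 * k ^ 3 := by nlinarith
        have f2 : 108 * (k * n) ≤ 4 * k ^ 3 := by
          have : k * (27 * n) ≤ k * k ^ 2 := Nat.mul_le_mul_left _ h27
          nlinarith
        have f3 : 216 * (k * m) ≤ 108 * k ^ 2 := by nlinarith
        have f4 : 27 * k * (k * k + 1) ≤ 108 * (k * (m * m)) + 54 * k ^ 2 := by
          have : k * k ≤ (2 * m + 1) * (2 * m + 1) := Nat.mul_le_mul hm1 hm1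
          have h5 : k * k + 1 ≤ 4 * (m * m) + 2 * k := by
            obtain ⟨t, ht⟩ : ∃ t, 2 * m + 1 = k + t := ⟨2 * m + 1 - k, by omega⟩
            have ht1 : t ≤ 1 := by omega
            interval_cases t <;> nlinarith
          have h6 : 27 * k * (k * k + 1) ≤ 27 * k * (4 * (m * m) + 2 * k) :=
            Nat.mul_le_mul_left _ h5
          have h7 : 27 * k * (4 * (m * m) + 2 * k) = 108 * (k * (m * m)) + 54 * k ^ 2 := by ring
          omega
        have f5 : 16 * k ^ 3 + 162 * k ^ 2 < 27 * k * (k * k + 1) := by
          have g1 : 81 * k ^ 2 ≤ k * k ^ 2 := Nat.mul_le_mul_right _ h81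
          have g2 : k * k ^ 2 = k ^ 3 := by ring
          have g3 : 27 * k * (k * k + 1) = 27 * k ^ 3 + 27 * k := by ring
          omega
        omega
      have e4 : k * (2 * (m * (m - 1))) + 2 * (k * m) = 2 * (k * (m * m)) := by
        obtain ⟨t, rfl⟩ : ∃ t, m = t + 1 := ⟨m - 1, by omega⟩
        rw [Nat.add_sub_cancel]; ring
      have e5 : k * (m * m + N * (q + 1)) = k * (m * m) + k * (N * q) + k * N := by ring
      have e6 : 2 * N * N = 2 * (N * N) := by ring
      rw [e5]
      omega

end Pool.Agent.Results.MP_81ec8a_co.CliqueBlock
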